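import Pool.Agent.Y80.KM.Defs2

set_option autoImplicit false
set_option linter.unusedSectionVars false
set_option linter.unusedSimpArgs false

open scoped BigOperators

/-! Job H1 of project KM (helper80): generation of the Tits type Lie algebra in degrees `≥ 2`. -/

namespace Pool.Agent.Y201.KM

open Pool.Agent.Y80.KM

variable {k A : Type*} [Field k] [CharZero k] [NonUnitalNonAssocRing A] [Module k A]
  [IsScalarTower k A A] [SMulCommClass k A A]

section general

variable {N : ℕ} [NeZero N] (T : TitsData k A N) (𝒜 : ℕ → Submodule k A)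

/-- the span of the brackets of weight vectors of total degree `n` and total weight `μ` -/
noncomputable def VV (n : ℕ) (μ : Fin N → ℤ) : Submodule k (TLie T) :=
  Submodule.span k {x | ∃ i j, ∃ ν ν' : Fin N → ℤ, i + j = n ∧ ν + ν' = μ ∧
      ∃ y ∈ lcomp T 𝒜 i ν, ∃ z ∈ lcomp T 𝒜 j ν', x = TLie.br T y z}

theorem epsd_inj {i j i' j' : Fin N} (hij : i ≠ j) (h : epsd i j = epsd i' j') :
    i = i' ∧ j = j' := by
  have h1 := congrFun h i
  have h2 := congrFun h j
  simp only [epsd, Pi.sub_apply, Pi.single_apply, if_true, hij, hij.symm, if_false] at h1 h2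
  constructor
  · by_contra hc
    rw [if_neg hc] at h1
    split_ifs at h1 <;> omega
  · by_contra hc
    rw [if_neg hc] at h2
    split_ifs at h2 <;> omega

theorem epsd_zero {i j : Fin N} (h : epsd i j = 0) : i = j := by
  by_contra hij
  have h1 := congrFun h i
  simp only [epsd, Pi.sub_apply, Pi.single_apply, if_true, hij, if_false, Pi.zero_apply] at h1
  omega

theorem epsd_self (i : Fin N) : epsd i i = 0 := by
  simp [epsd]

theorem epsd_add (i l j : Fin N) : epsd i l + epsd l j = epsd i j := by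
  simp [epsd]

/-- the element `E_ij ⊗ u` -/
noncomputable def EE (i j : Fin N) (hij : i ≠ j) : A →ₗ[k] TLie T where
  toFun u := TLie.mk T (Matrix.single i j u) (Matrix.trace_single_eq_of_ne i j u hij) 0
  map_add' u v := by
    apply TLie.ext
    · simp [Matrix.single_add]
    · simp
  map_smul' c u := by
    apply TLie.ext
    · simp [Matrix.smul_single]
    · simp

/-- the element `(E_ii - E_jj) ⊗ u` -/
noncomputable def HH (i j : Fin N) : A →ₗ[k] TLie T where
  toFun u := TLie.mk T (Matrix.single i i u - Matrix.single j j u) (by simp) 0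
  map_add' u v := by
    apply TLie.ext
    · simp only [TLie.mat_mk, TLie.mat_add, Matrix.single_add]
      abel
    · simp
  map_smul' c u := by
    apply TLie.ext
    · simp [Matrix.smul_single, smul_sub]
    · simp

/-- the element `b` of `B(A)` -/
noncomputable def BB : BSp k A →ₗ[k] TLie T where
  toFun b := TLie.mk T 0 (by simp) b
  map_add' u v := by
    apply TLie.ext
    · simp
    · simp
  map_smul' c u := by
    apply TLie.ext
    · simp
    · simp

@[simp] theorem mat_EE (i j : Fin N) (hij : i ≠ j) (u : A) :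
    (EE T i j hij u).mat = Matrix.single i j u := rfl
@[simp] theorem b_EE (i j : Fin N) (hij : i ≠ j) (u : A) : (EE T i j hij u).b = 0 := rfl
@[simp] theorem mat_HH (i j : Fin N) (u : A) :
    (HH T i j u).mat = Matrix.single i i u - Matrix.single j j u := rfl
@[simp] theorem b_HH (i j : Fin N) (u : A) : (HH T i j u).b = 0 := rfl
@[simp] theorem mat_BB (b : BSp k A) : (BB T b).mat = 0 := rfl
@[simp] theorem b_BB (b : BSp k A) : (BB T b).b = b := rfl

theorem single_mem {m : ℕ} {u : A} (hu : u ∈ 𝒜 m) (i j i' j' : Fin N) :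
    (Matrix.single i j u : Matrix (Fin N) (Fin N) A) i' j' ∈ 𝒜 m := by
  rw [Matrix.single_apply]
  split_ifs
  · exact hu
  · exact zero_mem _

theorem EE_mem {m : ℕ} {u : A} (hu : u ∈ 𝒜 m) (i j : Fin N) (hij : i ≠ j) :
    EE T i j hij u ∈ lcomp T 𝒜 m (epsd i j) := by
  refine ⟨⟨?_, fun _ => rfl⟩, fun i' j' => ⟨single_mem 𝒜 hu i j i' j', fun h => ?_⟩⟩
  · rw [b_EE]; exact zero_mem _
  · rw [mat_EE]
    apply Matrix.single_apply_of_ne
    rintro ⟨rfl, rfl⟩
    exact h rfl

theorem HH_mem {m : ℕ} {u : A} (hu : u ∈ 𝒜 m) (i j : Fin N) :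
    HH T i j u ∈ lcomp T 𝒜 m 0 := by
  refine ⟨⟨?_, fun _ => rfl⟩, fun i' j' => ⟨sub_mem (single_mem 𝒜 hu i i i' j')
    (single_mem 𝒜 hu j j i' j'), fun h => ?_⟩⟩
  · rw [b_HH]; exact zero_mem _
  · rw [mat_HH, Matrix.sub_apply, Matrix.single_apply_of_ne, Matrix.single_apply_of_ne, sub_zero]
    · rintro ⟨rfl, rfl⟩
      exact h (epsd_self _).symm
    · rintro ⟨rfl, rfl⟩
      exact h (epsd_self _).symm

theorem mat_br0 (x y : TLie T) (hx : x.b = 0) (hy : y.b = 0) :
    (TLie.br T x y).mat = cbr k x.mat y.mat := by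
  rw [TLie.mat_br, hx, hy, map_zero]
  have h : ∀ M : Matrix (Fin N) (Fin N) A, M.map ((0 : A →ₗ[k] A) : A → A) = 0 := by
    intro M
    ext i j
    simp
  rw [h, h]
  simp

theorem b_br0 (x y : TLie T) (hx : x.b = 0) :
    (TLie.br T x y).b = T.c • tw k x.mat y.mat := by
  rw [TLie.b_br, hx]
  simp

theorem tw_single (i j i' j' : Fin N) (u v : A) :
    tw k (Matrix.single i j u : Matrix (Fin N) (Fin N) A) (Matrix.single i' j' v) =
      if i = j' ∧ j = i' then wedge k A u v else 0 := by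
  rw [tw, Finset.sum_eq_single i, Finset.sum_eq_single j]
  · rw [Matrix.single_apply_same, Matrix.single_apply]
    by_cases h : i = j' ∧ j = i'
    · rw [if_pos h, if_pos ⟨h.2.symm, h.1.symm⟩]
    · rw [if_neg h, if_neg (fun h' => h ⟨h'.2.symm, h'.1.symm⟩), map_zero]
  · intro l _ hl
    rw [Matrix.single_apply_of_ne _ _ _ _ _ (fun h => hl h.2.symm), map_zero, LinearMap.zero_apply]
  · intro h
    exact absurd (Finset.mem_univ _) h
  · intro l _ hl
    apply Finset.sum_eq_zero
    intro l' _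
    rw [Matrix.single_apply_of_ne _ _ _ _ _ (fun h => hl h.1.symm), map_zero, LinearMap.zero_apply]
  · intro h
    exact absurd (Finset.mem_univ _) h

theorem EE_br (i l j : Fin N) (hil : i ≠ l) (hlj : l ≠ j) (hij : i ≠ j) (u v : A) :
    TLie.br T (EE T i l hil u) (EE T l j hlj v) = EE T i j hij (u * v) := by
  apply TLie.ext
  · rw [mat_br0 T _ _ rfl rfl, mat_EE, mat_EE, mat_EE, cbr, Matrix.single_mul_single_same,
      Matrix.single_mul_single_of_ne _ _ _ _ hij.symm, sub_zero,
      Matrix.trace_single_eq_of_ne _ _ _ hij]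
    simp
  · rw [b_br0 T _ _ rfl, mat_EE, mat_EE, tw_single, if_neg (fun h => hij h.1)]
    simp

theorem EE_prod_mem {p q : ℕ} {u v : A} (hu : u ∈ 𝒜 p) (hv : v ∈ 𝒜 q) (i l j : Fin N)
    (hil : i ≠ l) (hlj : l ≠ j) (hij : i ≠ j) :
    EE T i j hij (u * v) ∈ VV T 𝒜 (p + q) (epsd i j) := by
  apply Submodule.subset_span
  exact ⟨p, q, epsd i l, epsd l j, rfl, epsd_add i l j, _, EE_mem T 𝒜 hu i l hil, _,
    EE_mem T 𝒜 hv l j hlj, (EE_br T i l j hil hlj hij u v).symm⟩

/-- the bracket `[E_ij ⊗ u, E_ji ⊗ v]` -/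
theorem X_mem {p q : ℕ} {u v : A} (hu : u ∈ 𝒜 p) (hv : v ∈ 𝒜 q) (i j : Fin N) (hij : i ≠ j) :
    TLie.br T (EE T i j hij u) (EE T j i hij.symm v) ∈ VV T 𝒜 (p + q) 0 := by
  apply Submodule.subset_span
  exact ⟨p, q, epsd i j, epsd j i, rfl, by rw [epsd_add, epsd_self], _, EE_mem T 𝒜 hu i j hij, _,
    EE_mem T 𝒜 hv j i hij.symm, rfl⟩

theorem X_mat (i j : Fin N) (hij : i ≠ j) (u v : A) :
    (TLie.br T (EE T i j hij u) (EE T j i hij.symm v)).mat =
      Matrix.single i i (u * v) - Matrix.single j j (v * u) -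
        Matrix.diagonal fun _ => (N : k)⁻¹ • (u * v - v * u) := by
  rw [mat_br0 T _ _ rfl rfl, mat_EE, mat_EE, cbr, Matrix.single_mul_single_same,
    Matrix.single_mul_single_same, Matrix.trace_sub, Matrix.trace_single_eq_same,
    Matrix.trace_single_eq_same]

theorem X_b (i j : Fin N) (hij : i ≠ j) (u v : A) :
    (TLie.br T (EE T i j hij u) (EE T j i hij.symm v)).b = T.c • wedge k A u v := by
  rw [b_br0 T _ _ rfl, mat_EE, mat_EE, tw_single, if_pos ⟨rfl, rfl⟩]

/-- an element of root weight -/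
theorem eq_EE {n : ℕ} {i j : Fin N} (hij : i ≠ j) {x : TLie T}
    (hx : x ∈ lcomp T 𝒜 n (epsd i j)) : x = EE T i j hij (x.mat i j) := by
  obtain ⟨⟨-, h1⟩, h2⟩ := hx
  apply TLie.ext
  · ext i' j'
    rw [mat_EE, Matrix.single_apply]
    split_ifs with h
    · rw [h.1, h.2]
    · exact (h2 i' j').2 fun h' => h (epsd_inj hij h')
  · exact h1 fun h => hij (epsd_zero h)

/-- an element of another weight is zero -/
theorem eq_zero_of {n : ℕ} {μ : Fin N → ℤ} (hμ : ∀ i j, μ ≠ epsd i j) {x : TLie T}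
    (hx : x ∈ lcomp T 𝒜 n μ) : x = 0 := by
  obtain ⟨⟨-, h1⟩, h2⟩ := hx
  apply TLie.ext
  · ext i' j'
    exact (h2 i' j').2 (hμ i' j')
  · exact h1 fun h => hμ 0 0 (by rw [h, epsd_self])

theorem BB_mem_of {n : ℕ} (hc : T.c ≠ 0)
    (h : ∀ p q, p + q = n → ∀ u ∈ 𝒜 p, ∀ v ∈ 𝒜 q, BB T (T.c • wedge k A u v) ∈ VV T 𝒜 n 0)
    {b : BSp k A} (hb : b ∈ bcomp 𝒜 n) : BB T b ∈ VV T 𝒜 n 0 := by
  have hle : bcomp 𝒜 n ≤ (VV T 𝒜 n 0).comap (BB T) := by
    rw [bcomp, Submodule.span_le]
    rintro x ⟨p, q, hpq, u, hu, v, hv, rfl⟩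
    have h1 := h p q hpq u hu v hv
    rw [map_smul] at h1
    have h2 := Submodule.smul_mem _ (T.c)⁻¹ h1
    rw [smul_smul, inv_mul_cancel₀ hc, one_smul] at h2
    exact h2
  exact hle hb

end general

section three

theorem exists_third : ∀ i j : Fin 3, i ≠ j → ∃ l : Fin 3, i ≠ l ∧ l ≠ j := by decide

variable (𝒜 : ℕ → Submodule k A)

theorem gen3 (T : TitsData k A 3) (hc : T.c ≠ 0)
    (hm : ∀ m n, ∀ x ∈ 𝒜 m, ∀ y ∈ 𝒜 n, x * y ∈ 𝒜 (m + n)) (h0 : 𝒜 0 = ⊥)
    (hg : ∀ n, 2 ≤ n → 𝒜 n ≤ Submodule.span k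
      {x | ∃ i j, 1 ≤ i ∧ 1 ≤ j ∧ i + j = n ∧ ∃ a ∈ 𝒜 i, ∃ b ∈ 𝒜 j, x = a * b})
    (n : ℕ) (hn : 2 ≤ n) (μ : Fin 3 → ℤ) :
    lcomp T 𝒜 n μ ≤ Submodule.span k {x | ∃ i j, ∃ ν ν' : Fin 3 → ℤ, i + j = n ∧ ν + ν' = μ ∧
      ∃ y ∈ lcomp T 𝒜 i ν, ∃ z ∈ lcomp T 𝒜 j ν', x = TLie.br T y z} := by
  change lcomp T 𝒜 n μ ≤ VV T 𝒜 n μ
  intro x hx
  by_cases hμ : ∃ i j, μ = epsd i j
  swap
  · push Not at hμ
    rw [eq_zero_of T 𝒜 hμ hx]
    exact zero_mem _
  obtain ⟨i, j, rfl⟩ := hμ
  by_cases hij : i = j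
  swap
  · -- roots
    obtain ⟨l, hil, hlj⟩ : ∃ l : Fin 3, i ≠ l ∧ l ≠ j := exists_third i j hij
    rw [eq_EE T 𝒜 hij hx]
    have hle : 𝒜 n ≤ (VV T 𝒜 n (epsd i j)).comap (EE T i j hij) := by
      refine (hg n hn).trans ?_
      rw [Submodule.span_le]
      rintro y ⟨p, q, -, -, rfl, u, hu, v, hv, rfl⟩
      exact EE_prod_mem T 𝒜 hu hv i l j hil hlj hij
    exact hle (hx.2 i j).1
  · -- weight zero
    subst hij
    rw [epsd_self] at hx ⊢
    have hH : ∀ i j l : Fin 3, i ≠ j → i ≠ l → j ≠ l → ∀ a ∈ 𝒜 n, HH T l j a ∈ VV T 𝒜 n 0 := by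
      intro i j l hij hil hjl a ha
      have hle : 𝒜 n ≤ (VV T 𝒜 n 0).comap (HH T l j) := by
        refine (hg n hn).trans ?_
        rw [Submodule.span_le]
        rintro y ⟨p, q, -, -, rfl, v, hv, u, hu, rfl⟩
        have h1 := sub_mem (X_mem T 𝒜 hu hv i j hij) (X_mem T 𝒜 hu hv i l hil)
        have h2 : HH T l j (v * u) = TLie.br T (EE T i j hij u) (EE T j i hij.symm v) -
            TLie.br T (EE T i l hil u) (EE T l i hil.symm v) := by
          apply TLie.ext
          · rw [TLie.mat_sub, X_mat, X_mat, mat_HH]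
            abel
          · rw [TLie.b_sub, X_b, X_b, b_HH, sub_self]
        change HH T l j (v * u) ∈ VV T 𝒜 (p + q) 0
        rw [h2, add_comm p q]
        exact h1
      exact hle ha
    have hD : ∀ y : TLie T, y.b = 0 → (∀ i j, i ≠ j → y.mat i j = 0) →
        (∀ i, y.mat i i ∈ 𝒜 n) → y ∈ VV T 𝒜 n 0 := by
      intro y hy1 hy2 hy3
      have h1 : y = HH T 0 1 (y.mat 0 0) + HH T 1 2 (y.mat 0 0 + y.mat 1 1) := by
        have htr := TLie.trace_mat T y
        rw [Matrix.trace_fin_three] at htr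
        have h22 : y.mat 2 2 = - (y.mat 0 0 + y.mat 1 1) := by
          rw [eq_neg_iff_add_eq_zero, add_comm]
          exact htr
        apply TLie.ext
        · ext i j
          rw [TLie.mat_add, mat_HH, mat_HH]
          by_cases hij : i = j
          · subst hij
            fin_cases i
            · simp [Matrix.single_apply]
            · simp [Matrix.single_apply]
            · simp [Matrix.single_apply, h22]
          · rw [hy2 i j hij]
            simp only [Matrix.add_apply, Matrix.sub_apply, Matrix.single_apply]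
            have e0 : ∀ l : Fin 3, ¬ (l = i ∧ l = j) := by
              rintro l ⟨h1, h2⟩
              exact hij (h1.symm.trans h2)
            rw [if_neg (e0 0), if_neg (e0 1), if_neg (e0 1), if_neg (e0 2)]
            simp
        · rw [TLie.b_add, b_HH, b_HH, hy1, add_zero]
      rw [h1]
      exact add_mem (hH 2 1 0 (by decide) (by decide) (by decide) _ (hy3 0))
        (hH 0 2 1 (by decide) (by decide) (by decide) _ (add_mem (hy3 0) (hy3 1)))
    have hB : ∀ b ∈ bcomp 𝒜 n, BB T b ∈ VV T 𝒜 n 0 := by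
      intro b hb
      refine BB_mem_of T 𝒜 hc ?_ hb
      rintro p q rfl u hu v hv
      have huv := hm p q u hu v hv
      have hvu : v * u ∈ 𝒜 (p + q) := by
        rw [add_comm]
        exact hm q p v hv u hu
      have h1 := X_mem T 𝒜 hu hv 0 1 (by decide)
      have h2 : BB T (T.c • wedge k A u v) =
          TLie.br T (EE T 0 1 (by decide) u) (EE T 1 0 (by decide) v) -
          (TLie.br T (EE T 0 1 (by decide) u) (EE T 1 0 (by decide) v) -
            BB T (T.c • wedge k A u v)) := by abel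
      rw [h2]
      refine sub_mem h1 (hD _ ?_ ?_ ?_)
      · rw [TLie.b_sub, X_b, b_BB, sub_self]
      · intro i j hij
        rw [TLie.mat_sub, X_mat, mat_BB, sub_zero]
        simp only [Matrix.sub_apply, Matrix.single_apply, Matrix.diagonal_apply_ne _ hij]
        have e0 : ∀ l : Fin 3, ¬ (l = i ∧ l = j) := by
          rintro l ⟨h1, h2⟩
          exact hij (h1.symm.trans h2)
        rw [if_neg (e0 0), if_neg (e0 1)]
        simp
      · intro i
        rw [TLie.mat_sub, X_mat, mat_BB, sub_zero]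
        simp only [Matrix.sub_apply, Matrix.diagonal_apply_eq]
        exact sub_mem (sub_mem (single_mem 𝒜 huv 0 0 i i) (single_mem 𝒜 hvu 1 1 i i))
          (Submodule.smul_mem _ _ (sub_mem huv hvu))
    have h1 : x = (x - BB T x.b) + BB T x.b := by abel
    rw [h1]
    refine add_mem (hD _ ?_ ?_ ?_) (hB _ hx.1.1)
    · rw [TLie.b_sub, b_BB, sub_self]
    · intro i j hij
      rw [TLie.mat_sub, mat_BB, sub_zero]
      exact (hx.2 i j).2 fun h => hij (epsd_zero h.symm)
    · intro i
      rw [TLie.mat_sub, mat_BB, sub_zero]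
      exact (hx.2 i i).1

theorem gen2 (T : TitsData k A 2) (hc : T.c ≠ 0) (hcomm : ∀ a b : A, a * b = b * a)
    (hm : ∀ m n, ∀ x ∈ 𝒜 m, ∀ y ∈ 𝒜 n, x * y ∈ 𝒜 (m + n)) (h0 : 𝒜 0 = ⊥)
    (hg : ∀ n, 2 ≤ n → 𝒜 n ≤ Submodule.span k
      {x | ∃ i j, 1 ≤ i ∧ 1 ≤ j ∧ i + j = n ∧ ∃ a ∈ 𝒜 i, ∃ b ∈ 𝒜 j, x = a * b})
    (n : ℕ) (hn : 2 ≤ n) (μ : Fin 2 → ℤ) :
    lcomp T 𝒜 n μ ≤ Submodule.span k {x | ∃ i j, ∃ ν ν' : Fin 2 → ℤ, i + j = n ∧ ν + ν' = μ ∧
      ∃ y ∈ lcomp T 𝒜 i ν, ∃ z ∈ lcomp T 𝒜 j ν', x = TLie.br T y z} := by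
  change lcomp T 𝒜 n μ ≤ VV T 𝒜 n μ
  intro x hx
  by_cases hμ : ∃ i j, μ = epsd i j
  swap
  · push Not at hμ
    rw [eq_zero_of T 𝒜 hμ hx]
    exact zero_mem _
  obtain ⟨i, j, rfl⟩ := hμ
  by_cases hij : i = j
  swap
  · -- roots
    rw [eq_EE T 𝒜 hij hx]
    have hle : 𝒜 n ≤ (VV T 𝒜 n (epsd i j)).comap (EE T i j hij) := by
      refine (hg n hn).trans ?_
      rw [Submodule.span_le]
      rintro y ⟨p, q, -, -, rfl, u, hu, v, hv, rfl⟩
      have h1 : TLie.br T (HH T i j u) (EE T i j hij v) = (2 : k) • EE T i j hij (u * v) := by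
        apply TLie.ext
        · rw [mat_br0 T _ _ rfl rfl, mat_HH, mat_EE, TLie.mat_smul, mat_EE, cbr, sub_mul, mul_sub,
            Matrix.single_mul_single_same, Matrix.single_mul_single_of_ne _ _ _ _ (Ne.symm hij),
            Matrix.single_mul_single_of_ne _ _ _ _ (Ne.symm hij), Matrix.single_mul_single_same,
            hcomm v u]
          have h2 : (Matrix.single i j (u * v) - 0 - (0 - Matrix.single i j (u * v)) :
              Matrix (Fin 2) (Fin 2) A) = Matrix.single i j ((2 : k) • (u * v)) := by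
            rw [two_smul, Matrix.single_add]
            abel
          rw [h2, Matrix.trace_single_eq_of_ne _ _ _ hij, ← Matrix.smul_single]
          simp
        · rw [b_br0 T _ _ rfl, mat_HH, mat_EE, TLie.b_smul, b_EE, smul_zero]
          have h3 : tw k (Matrix.single i i u - Matrix.single j j u : Matrix (Fin 2) (Fin 2) A)
              (Matrix.single i j v) = tw k (Matrix.single i i u : Matrix (Fin 2) (Fin 2) A)
                (Matrix.single i j v) - tw k (Matrix.single j j u : Matrix (Fin 2) (Fin 2) A)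
                (Matrix.single i j v) := by
            simp only [tw, Matrix.sub_apply, map_sub, LinearMap.sub_apply, Finset.sum_sub_distrib]
          rw [h3, tw_single, tw_single, if_neg (fun h => hij h.1), if_neg (fun h => hij h.2.symm)]
          simp
      have h2 : TLie.br T (HH T i j u) (EE T i j hij v) ∈ VV T 𝒜 (p + q) (epsd i j) := by
        apply Submodule.subset_span
        exact ⟨p, q, 0, epsd i j, rfl, zero_add _, _, HH_mem T 𝒜 hu i j, _,
          EE_mem T 𝒜 hv i j hij, rfl⟩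
      rw [h1] at h2
      have h3 := Submodule.smul_mem _ (2 : k)⁻¹ h2
      rw [smul_smul, inv_mul_cancel₀ (two_ne_zero), one_smul] at h3
      exact h3
    exact hle (hx.2 i j).1
  · -- weight zero
    subst hij
    rw [epsd_self] at hx ⊢
    have hB : ∀ b ∈ bcomp 𝒜 n, BB T b ∈ VV T 𝒜 n 0 := by
      intro b hb
      refine BB_mem_of T 𝒜 hc ?_ hb
      rintro p q rfl u hu v hv
      have h1 : TLie.br T (HH T 0 1 u) (HH T 0 1 v) =
          (2 : k) • BB T (T.c • wedge k A u v) := by
        apply TLie.ext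
        · rw [mat_br0 T _ _ rfl rfl, TLie.mat_smul, mat_BB, smul_zero, cbr]
          have h2 : (HH T 0 1 u).mat * (HH T 0 1 v).mat - (HH T 0 1 v).mat * (HH T 0 1 u).mat =
              0 := by
            rw [mat_HH, mat_HH]
            simp only [sub_mul, mul_sub, Matrix.single_mul_single_same]
            rw [Matrix.single_mul_single_of_ne _ _ _ _ (by decide : (0 : Fin 2) ≠ 1),
              Matrix.single_mul_single_of_ne _ _ _ _ (by decide : (1 : Fin 2) ≠ 0),
              Matrix.single_mul_single_of_ne _ _ _ _ (by decide : (0 : Fin 2) ≠ 1),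
              Matrix.single_mul_single_of_ne _ _ _ _ (by decide : (1 : Fin 2) ≠ 0), hcomm v u]
            abel
          rw [h2]
          simp
        · rw [b_br0 T _ _ rfl, TLie.b_smul, b_BB, mat_HH, mat_HH]
          have h3 : tw k (Matrix.single 0 0 u - Matrix.single 1 1 u : Matrix (Fin 2) (Fin 2) A)
              (Matrix.single 0 0 v - Matrix.single 1 1 v) = (2 : k) • wedge k A u v := by
            simp only [tw, Fin.sum_univ_two, Matrix.sub_apply, Matrix.single_apply]
            simp only [and_self, if_true, Fin.isValue, zero_ne_one, one_ne_zero, if_false,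
              sub_zero, zero_sub, and_true, true_and, and_false, false_and, sub_self, map_zero,
              LinearMap.zero_apply, add_zero, zero_add, map_neg, LinearMap.neg_apply, neg_neg]
            rw [two_smul]
          rw [h3, smul_comm]
      have h2 : TLie.br T (HH T 0 1 u) (HH T 0 1 v) ∈ VV T 𝒜 (p + q) 0 := by
        apply Submodule.subset_span
        exact ⟨p, q, 0, 0, rfl, zero_add _, _, HH_mem T 𝒜 hu 0 1, _, HH_mem T 𝒜 hv 0 1, rfl⟩
      rw [h1] at h2
      have h3 := Submodule.smul_mem _ (2 : k)⁻¹ h2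
      rw [smul_smul, inv_mul_cancel₀ (two_ne_zero), one_smul] at h3
      exact h3
    have hH : ∀ a ∈ 𝒜 n, HH T 0 1 a ∈ VV T 𝒜 n 0 := by
      intro a ha
      have hle : 𝒜 n ≤ (VV T 𝒜 n 0).comap (HH T 0 1) := by
        refine (hg n hn).trans ?_
        rw [Submodule.span_le]
        rintro y ⟨p, q, -, -, rfl, u, hu, v, hv, rfl⟩
        have h1 := X_mem T 𝒜 hu hv 0 1 (by decide)
        have h2 : HH T 0 1 (u * v) = TLie.br T (EE T 0 1 (by decide) u) (EE T 1 0 (by decide) v) -
            BB T (T.c • wedge k A u v) := by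
          apply TLie.ext
          · rw [TLie.mat_sub, X_mat, mat_HH, mat_BB, hcomm v u, sub_self]
            simp
          · rw [TLie.b_sub, X_b, b_HH, b_BB, sub_self]
        change HH T 0 1 (u * v) ∈ VV T 𝒜 (p + q) 0
        rw [h2]
        refine sub_mem h1 (hB _ (Submodule.smul_mem _ _ (Submodule.subset_span ?_)))
        exact ⟨p, q, rfl, u, hu, v, hv, rfl⟩
      exact hle ha
    have h1 : x = HH T 0 1 (x.mat 0 0) + BB T x.b := by
      have htr := TLie.trace_mat T x
      rw [Matrix.trace_fin_two] at htr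
      have h11 : x.mat 1 1 = - x.mat 0 0 := by
        rw [eq_neg_iff_add_eq_zero, add_comm]
        exact htr
      apply TLie.ext
      · ext i j
        rw [TLie.mat_add, mat_HH, mat_BB, add_zero]
        by_cases hij : i = j
        · subst hij
          fin_cases i
          · simp [Matrix.single_apply]
          · simp [Matrix.single_apply, h11]
        · rw [(hx.2 i j).2 fun h => hij (epsd_zero h.symm)]
          simp only [Matrix.sub_apply, Matrix.single_apply]
          have e0 : ∀ l : Fin 2, ¬ (l = i ∧ l = j) := by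
            rintro l ⟨h1, h2⟩
            exact hij (h1.symm.trans h2)
          rw [if_neg (e0 0), if_neg (e0 1)]
          simp
      · rw [TLie.b_add, b_HH, b_BB, zero_add]
    rw [h1]
    exact add_mem (hH _ (hx.2 0 0).1) (hB _ hx.1.1)

end three

end Pool.Agent.Y201.KM
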